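import Pool.Agent.W275.ND.Stm

/-!
# HE-CORE: two places of good reduction bound the periods
-/

set_option autoImplicit false

namespace Pool.Agent.W216.ND

open MvPolynomial Pool.Agent.H936R2 Pool.Agent.H927R2.RD H294UB Pool.Agent.W275.UB
  Pool.Agent.W275.ND

lemma per_mul {K : Type} {y : ℕ → K} {a : ℕ} (h : ∀ t, y (t + a) = y t) (k : ℕ) :
    ∀ t, y (t + a * k) = y t := by
  induction k with
  | zero => intro t; rw [mul_zero, add_zero]
  | succ k ih => intro t; rw [mul_add, mul_one, ← add_assoc, h, ih]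

lemma per_gcd {K : Type} {y : ℕ → K} (a b : ℕ) : (∀ t, y (t + a) = y t) →
    (∀ t, y (t + b) = y t) → ∀ t, y (t + Nat.gcd a b) = y t := by
  induction a, b using Nat.gcd.induction with
  | H0 b => intro _ hb; rwa [Nat.gcd_zero_left]
  | H1 a b _ ih =>
    intro ha hb
    rw [Nat.gcd_rec]
    refine ih (fun t => ?_) ha
    have h1 := per_mul ha (b / a) (t + b % a)
    have h2 : t + b % a + a * (b / a) = t + b := by
      have := Nat.mod_add_div b a
      omega
    rw [h2, hb] at h1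
    exact h1.symm

lemma gcd_dvd {a b p q r s : ℕ} (hp : p.Prime) (hq : q.Prime) (hpq : p ≠ q) :
    Nat.gcd (a * p ^ r) (b * q ^ s) ∣ a * b := by
  have hc : Nat.gcd (p ^ r) (q ^ s) = 1 :=
    Nat.Coprime.pow r s ((Nat.coprime_primes hp hq).2 hpq)
  have h1 : Nat.gcd (a * p ^ r) (b * q ^ s) ∣ a * b * p ^ r :=
    (Nat.gcd_dvd_left _ _).trans ⟨b, by ring⟩
  have h2 : Nat.gcd (a * p ^ r) (b * q ^ s) ∣ a * b * q ^ s :=
    (Nat.gcd_dvd_right _ _).trans ⟨a, by ring⟩
  have h3 := Nat.dvd_gcd h1 h2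
  rwa [Nat.gcd_mul_left, hc, mul_one] at h3

/-- the period given by one place -/
lemma one_place {p D W d : ℕ} (hd : 2 ≤ d)
    (HP : ∀ (A : Type) [CommRing A] [IsDomain A] [IsDiscreteValuationRing A] (K : Type) [Field K]
      [Algebra A K] [IsFractionRing A K] (π : A), Irreducible π → π ∣ (p : A) →
      Finite (A ⧸ Ideal.span {π}) → Nat.card (A ⧸ Ideal.span {π}) ≤ p ^ D →
      ∀ (F : Polynomial A) (δ : A), 2 ≤ F.natDegree → IsUnit F.leadingCoeff → IsUnit δ →
      ∀ y : ℕ → K, (∀ t, y (t + 2) =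
        (F.map (algebraMap A K)).eval (y (t + 1)) - algebraMap A K δ * y t) →
      (∃ n, 0 < n ∧ ∀ t, y (t + n) = y t) → ∃ r : ℕ, ∀ t, y (t + W * p ^ r) = y t)
    {T : Type} [Fintype T] {K : Type} [Field K] {v : Hx d T → K}
    (hLM : LM p D 0 (cH d T) 1 K v) {y : ℕ → K} (hy : HRec v y)
    (hper : ∃ n, 0 < n ∧ ∀ t, y (t + n) = y t) : ∃ r : ℕ, ∀ t, y (t + W * p ^ r) = y t := by
  obtain ⟨K', _, φ, A, _, _, _, _, _, π, a, hirr, hdiv, hai, hunit, -, hcard⟩ := hLM
  have hu : aeval a (cH d T) =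
      a (Sum.inl (Fin.last d)) * a (Sum.inr none) * ∏ s : T, a (Sum.inr (some s)) := by
    simp [cH]
  rw [hu] at hunit
  obtain ⟨h12, hm⟩ := IsUnit.mul_iff.1 hunit
  obtain ⟨h1, h2⟩ := IsUnit.mul_iff.1 h12
  obtain ⟨m', hm'⟩ := hm.exists_right_inv
  have hm'u : IsUnit m' := IsUnit.of_mul_eq_one _ (by rw [mul_comm]; exact hm')
  set F : Polynomial A := ∑ i : Fin (d + 1), Polynomial.C (a (Sum.inl i) * m') *
    Polynomial.X ^ (i : ℕ) with hF
  have hcoeff : F.coeff d = a (Sum.inl (Fin.last d)) * m' := by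
    rw [hF, Polynomial.finset_sum_coeff, Finset.sum_eq_single (Fin.last d)]
    · rw [Polynomial.coeff_C_mul, Polynomial.coeff_X_pow, Fin.val_last, if_pos rfl, mul_one]
    · intro i _ hi
      rw [Polynomial.coeff_C_mul, Polynomial.coeff_X_pow, if_neg, mul_zero]
      intro h
      exact hi (Fin.ext (by rw [Fin.val_last]; exact h.symm))
    · intro h
      exact absurd (Finset.mem_univ _) h
  have hcu : IsUnit (F.coeff d) := by
    rw [hcoeff]
    exact h1.mul hm'u
  have hle : F.natDegree ≤ d := by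
    refine Polynomial.natDegree_sum_le_of_forall_le _ _ fun i _ => ?_
    exact (Polynomial.natDegree_C_mul_X_pow_le _ _).trans (Nat.lt_succ_iff.1 i.2)
  have hdeg : F.natDegree = d :=
    le_antisymm hle (Polynomial.le_natDegree_of_ne_zero hcu.ne_zero)
  have hlead : IsUnit F.leadingCoeff := by
    rw [Polynomial.leadingCoeff, hdeg]
    exact hcu
  obtain ⟨hfin, hcard1⟩ := hcard 1
  rw [pow_one] at hfin hcard1
  rw [mul_one] at hcard1
  have hrec : ∀ t, φ (y (t + 2)) = (F.map (algebraMap A K')).eval (φ (y (t + 1))) -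
      algebraMap A K' (a (Sum.inr none) * m') * φ (y t) := by
    intro t
    have h3 := congrArg φ (hy t)
    rw [map_mul, map_sub, map_mul, map_prod, map_sum] at h3
    simp only [map_mul, map_pow, ← hai] at h3
    rw [← map_prod (algebraMap A K')] at h3
    have h4 : algebraMap A K' (∏ s : T, a (Sum.inr (some s))) * algebraMap A K' m' = 1 := by
      rw [← map_mul, hm', map_one]
    have h5 : (F.map (algebraMap A K')).eval (φ (y (t + 1))) =
        (∑ i : Fin (d + 1), algebraMap A K' (a (Sum.inl i)) * φ (y (t + 1)) ^ (i : ℕ)) *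
          algebraMap A K' m' := by
      rw [hF, Polynomial.map_sum, Polynomial.eval_finset_sum, Finset.sum_mul]
      refine Finset.sum_congr rfl fun i _ => ?_
      rw [Polynomial.map_mul, Polynomial.map_C, Polynomial.map_pow, Polynomial.map_X,
        Polynomial.eval_mul, Polynomial.eval_C, Polynomial.eval_pow, Polynomial.eval_X, map_mul]
      ring
    rw [h5, map_mul]
    calc φ (y (t + 2)) = (algebraMap A K' (∏ s : T, a (Sum.inr (some s))) * φ (y (t + 2))) *
          algebraMap A K' m' := by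
          rw [mul_right_comm, h4, one_mul]
      _ = _ := by rw [h3]; ring
  obtain ⟨n, hn, hyn⟩ := hper
  obtain ⟨r, hr⟩ := HP A K' π hirr hdiv hfin hcard1 F (a (Sum.inr none) * m') (by omega) hlead
    (h2.mul hm'u) (fun t => φ (y t)) hrec ⟨n, hn, fun t => by rw [hyn]⟩
  exact ⟨r, fun t => φ.injective (hr t)⟩

theorem main : S_hper → S_hcore := by
  intro h D d p q hd hp hq hpq
  obtain ⟨Wp, hWp, HP⟩ := h p D hp
  obtain ⟨Wq, hWq, HQ⟩ := h q D hq
  refine ⟨Wp * Wq, Nat.mul_pos hWp hWq, ?_⟩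
  intro T _ K _ v hLp hLq y hy hper
  obtain ⟨r, hr⟩ := one_place hd HP hLp hy hper
  obtain ⟨s, hs⟩ := one_place hd HQ hLq hy hper
  obtain ⟨k, hk⟩ := gcd_dvd (a := Wp) (b := Wq) (r := r) (s := s) hp hq hpq
  rw [hk]
  exact per_mul (per_gcd _ _ hr hs) k

end Pool.Agent.W216.ND
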